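import Mathlib
import Pool.Agent.Helper55.FalseThetaPos

open PowerSeries PowerSeries.WithPiTopology

namespace Pool.Agent.Results.MP_d4d41d_nt.Positivity

/-- The false theta function
`Ψ(a,b) = ∑_{n ≥ 0} a^C(n+1,2) b^C(n,2) - ∑_{n ≤ -1} a^C(n+1,2) b^C(n,2)`
as a formal power series in `q` (here `X`), for formal power series `a, b`.
In the second sum the index is `n = -(m+1)` with `m ≥ 0`, for which
`C(n+1,2) = (n+1)n/2 = m(m+1)/2 = C(m+1,2)` and `C(n,2) = n(n-1)/2 = (m+1)(m+2)/2 = C(m+2,2)`.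
The infinite sums are taken in the coefficientwise topology on formal power series. -/
noncomputable def falseTheta (a b : ℤ⟦X⟧) : ℤ⟦X⟧ :=
  (∑' n : ℕ, a ^ ((n + 1).choose 2) * b ^ (n.choose 2)) -
    ∑' m : ℕ, a ^ ((m + 1).choose 2) * b ^ ((m + 2).choose 2)

/-- There is exactly one integer power series `b` with `b * Ψ(-q^2,q) = (q;q)_∞`, that is
`b = (q;q)_∞ / Ψ(-q^2,q)`, and its coefficients `b(n)` are positive for all `n ≥ 7`. -/
theorem result :
    (∃! b : ℤ⟦X⟧, b * falseTheta (-X ^ 2) X = ∏' k : ℕ, (1 - X ^ (k + 1))) ∧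
    ∀ b : ℤ⟦X⟧, b * falseTheta (-X ^ 2) X = ∏' k : ℕ, (1 - X ^ (k + 1)) →
      ∀ n : ℕ, 7 ≤ n → 0 < coeff n b :=
  Pool.Agent.Helper55.FalseThetaPos.main

end Pool.Agent.Results.MP_d4d41d_nt.Positivity
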